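import Pool.Agent.Helper20.CliqueTest.Detect
import Pool.Agent.Helper74.Clique.CircMain

/-!
Circuits for multilinear polynomials that detect `k`-cliques; multilinear polynomials which do not vanish exactly at the
graphs with a `k`-clique.
-/

set_option autoImplicit false

namespace CliqueTest
open Finset MvPolynomial Clique

/-- **Circuits, detecting polynomials.** -/
theorem circ_detect (n k r : ℕ) (hk : 4096 ≤ k) (hkn : k + 4096 ≤ n) (f : MvPolynomial (Sym2 (Fin n)) ℂ)
    (hm : ∀ s, coeff s f ≠ 0 → ∀ e, s e ≤ 1) (hf : Detects k f)
    (h : ∀ ε : ℝ, 0 < ε → ∃ P : MvPolynomial (Sym2 (Fin n)) ℂ, Circ.MulRep P r ∧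
      ∀ s, ‖coeff s P - coeff s f‖ < ε) :
    ((n - k : ℕ) : ℝ) ^ 2 * Real.log (min k (n - k) : ℕ) ≤ 384 * r := by
  obtain ⟨h1, h2⟩ := reduce_circuits (by omega) hm hf h
  exact circ_main n k r hk hkn _ h1 h2

/-- the incidence vector of the edges of a graph -/
noncomputable def ind {n : ℕ} (G : SimpleGraph (Fin n)) (e : Sym2 (Fin n)) : ℂ :=
  open Classical in if e ∈ G.edgeSet then 1 else 0

/-- A multilinear polynomial whose values at the graphs are nonzero exactly if there is a `k`-clique (for example the
multilinear extension of the Boolean function `CLIQUE`) detects `k`-cliques. -/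
theorem detects_of_values {n k : ℕ} (f : MvPolynomial (Sym2 (Fin n)) ℂ)
    (hm : ∀ s, coeff s f ≠ 0 → ∀ e, s e ≤ 1)
    (hf : ∀ G : SimpleGraph (Fin n), eval (ind G) f ≠ 0 ↔ ∃ C : Finset (Fin n), G.IsNClique k C) :
    Detects k f := by
  classical
  have hev : ∀ G : SimpleGraph (Fin n), eval (ind G) (restr G f) = eval (ind G) f := by
    intro G
    unfold restr restrS
    rw [aeval_def, algebraMap_eq, eval_eval₂]
    have h1 : ((eval (ind G)).comp C : ℂ →+* ℂ) = RingHom.id ℂ := by
      ext z
      simp
    rw [h1]
    change eval _ f = _
    congr 1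
    congr 1
    funext e
    unfold ind
    split_ifs with he
    · rw [eval_X, if_pos he]
    · rw [map_zero]
  intro G
  constructor
  · intro h
    -- a minimal monomial
    have hne : (restr G f).support.Nonempty := MvPolynomial.support_nonempty.2 h
    obtain ⟨s, hs, hmin⟩ := Finset.exists_min_image (restr G f).support (fun s => s.support.card) hne
    rw [mem_support_iff, coeff_restr] at hs
    have hsG : (s.support : Set (Sym2 (Fin n))) ⊆ G.edgeSet := by
      by_contra hcon
      rw [if_neg hcon] at hs
      exact hs rfl
    rw [if_pos hsG] at hs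
    set H := SimpleGraph.fromEdgeSet (s.support : Set (Sym2 (Fin n))) with hH
    have hHe : H.edgeSet = s.support := edgeSet_from _ (hsG.trans (by
      intro e he
      induction e using Sym2.ind with
      | _ v w =>
        rw [mem_edgeSet_of_adj] at he ⊢
        rw [SimpleGraph.top_adj]
        exact he.ne))
    have hval : eval (ind H) f = coeff s f := by
      rw [← hev, eval_eq]
      rw [Finset.sum_eq_single s]
      · rw [coeff_restr, hHe, if_pos (Set.Subset.refl _)]
        rw [Finset.prod_eq_one, mul_one]
        intro e he
        unfold ind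
        rw [if_pos (by rw [hHe]; exact Finset.mem_coe.2 he), one_pow]
      · intro t ht hts
        exfalso
        rw [mem_support_iff, coeff_restr, hHe] at ht
        have htH : (t.support : Set (Sym2 (Fin n))) ⊆ (s.support : Set (Sym2 (Fin n))) := by
          by_contra hcon
          rw [if_neg hcon] at ht
          exact ht rfl
        rw [if_pos htH] at ht
        have h1 : t ∈ (restr G f).support := by
          rw [mem_support_iff, coeff_restr, if_pos (htH.trans hsG)]
          exact ht
        have h2 := hmin t h1
        have h3 : t.support = s.support :=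
          Finset.eq_of_subset_of_card_le (fun e he => Finset.mem_coe.1 (htH (Finset.mem_coe.2 he))) h2
        apply hts
        ext e
        have h4 := hm t ht e
        have h5 := hm s hs e
        by_cases he : e ∈ s.support
        · have h6 := Finsupp.mem_support_iff.1 he
          rw [← h3] at he
          have h7 := Finsupp.mem_support_iff.1 he
          omega
        · have h6 := Finsupp.notMem_support_iff.1 he
          rw [← h3] at he
          have h7 := Finsupp.notMem_support_iff.1 he
          omega
      · intro ht
        rw [notMem_support_iff.1 ht, zero_mul]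
    have h1 : eval (ind H) f ≠ 0 := by rw [hval]; exact hs
    obtain ⟨C, hC⟩ := (hf H).1 h1
    refine ⟨C, hC.mono ?_⟩
    intro v w hvw
    have : s(v, w) ∈ H.edgeSet := hvw
    rw [hHe] at this
    exact hsG this
  · intro h h0
    have h1 := (hf G).2 h
    rw [← hev, h0, map_zero] at h1
    exact h1 rfl

end CliqueTest
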