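import Pool.Agent.Helper74.Clique.Poly
import Pool.Agent.Helper74.Circ.SLP
import Pool.Agent.Helper24.SQ.Pad

/-!
Multilinear polynomials that detect `k`-cliques: their lowest form is a polynomial whose monomials are exactly the
`k`-cliques, and it is a limit of rescalings of the polynomial.
-/

set_option autoImplicit false

namespace CliqueTest
open Finset MvPolynomial Clique

variable {Ω : Type} [Fintype Ω] [DecidableEq Ω]

/-- `f` with the variables outside of `S` set to `0`. -/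
noncomputable def restrS (S : Set (Sym2 Ω)) (f : MvPolynomial (Sym2 Ω) ℂ) : MvPolynomial (Sym2 Ω) ℂ :=
  open Classical in aeval (fun e => if e ∈ S then X e else 0) f

/-- `f` with the variables of the pairs which are not edges of the graph `G` set to `0`. -/
noncomputable def restr (G : SimpleGraph Ω) (f : MvPolynomial (Sym2 Ω) ℂ) : MvPolynomial (Sym2 Ω) ℂ :=
  restrS G.edgeSet f

/-- the variables outside of `S` set to `0`, the others multiplied by `a` -/
noncomputable def scl (S : Set (Sym2 Ω)) (a : ℂ) (e : Sym2 Ω) : MvPolynomial (Sym2 Ω) ℂ :=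
  open Classical in if e ∈ S then C a * X e else 0

/-- `f` detects `k`-cliques: for every graph `G`, it is a nonzero polynomial on the edges of `G` iff `G` has a
`k`-clique. -/
def Detects (k : ℕ) (f : MvPolynomial (Sym2 Ω) ℂ) : Prop :=
  ∀ G : SimpleGraph Ω, restr G f ≠ 0 ↔ ∃ C : Finset Ω, G.IsNClique k C

open Classical in
omit [Fintype Ω] [DecidableEq Ω] in
/-- the coefficients after a rescaling -/
theorem coeff_scale (S : Set (Sym2 Ω)) (a : ℂ) (f : MvPolynomial (Sym2 Ω) ℂ)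
    (s : Sym2 Ω →₀ ℕ) :
    coeff s (aeval (scl S a) f) =
      if (s.support : Set (Sym2 Ω)) ⊆ S then a ^ (s.sum fun _ m => m) * coeff s f else 0 := by
  unfold scl
  have key : ∀ (t : Sym2 Ω →₀ ℕ) (c : ℂ),
      aeval (fun e => if e ∈ S then C a * X e else 0) (monomial t c) =
        if (t.support : Set (Sym2 Ω)) ⊆ S then
          (monomial t (a ^ (t.sum fun _ m => m) * c) : MvPolynomial (Sym2 Ω) ℂ) else 0 := by
    intro t c
    rw [aeval_monomial]
    split_ifs with h
    · have h1 : (t.prod fun e m => (if e ∈ S then C a * X e else 0 : MvPolynomial (Sym2 Ω) ℂ) ^ m) =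
          t.prod fun e m => (C (a ^ m) * X e ^ m : MvPolynomial (Sym2 Ω) ℂ) := by
        refine Finsupp.prod_congr fun e he => ?_
        rw [if_pos (h (Finset.mem_coe.2 he)), mul_pow, C_pow]
      rw [h1, Finsupp.prod_mul]
      have h2 : (t.prod fun _ m => (C (a ^ m) : MvPolynomial (Sym2 Ω) ℂ)) = C (a ^ (t.sum fun _ m => m)) := by
        unfold Finsupp.prod Finsupp.sum
        rw [← map_prod, Finset.prod_pow_eq_pow_sum]
      rw [h2, monomial_eq, algebraMap_eq, C_mul]
      ring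
    · rw [Set.not_subset] at h
      obtain ⟨e, he, heS⟩ := h
      have h1 : (t.prod fun e m => (if e ∈ S then C a * X e else 0 : MvPolynomial (Sym2 Ω) ℂ) ^ m) = 0 := by
        refine Finset.prod_eq_zero (Finset.mem_coe.1 he) ?_
        dsimp only
        rw [if_neg heS, zero_pow (Finsupp.mem_support_iff.1 (Finset.mem_coe.1 he))]
      rw [h1, mul_zero]
  conv_lhs => rw [f.as_sum, map_sum]
  rw [coeff_sum]
  simp only [key]
  rw [Finset.sum_eq_single s]
  · split_ifs with h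
    · rw [coeff_monomial, if_pos rfl]
    · rw [coeff_zero]
  · intro t _ hts
    split_ifs with h
    · rw [coeff_monomial, if_neg hts]
    · rw [coeff_zero]
  · intro hs
    rw [notMem_support_iff.1 hs]
    split_ifs <;> simp

open Classical in
omit [Fintype Ω] [DecidableEq Ω] in
theorem coeff_restr (G : SimpleGraph Ω) (f : MvPolynomial (Sym2 Ω) ℂ) (s : Sym2 Ω →₀ ℕ) :
    coeff s (restr G f) = if (s.support : Set (Sym2 Ω)) ⊆ G.edgeSet then coeff s f else 0 := by
  have h := coeff_scale G.edgeSet 1 f s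
  have h2 : restr G f = aeval (scl G.edgeSet 1) f := by
    unfold restr restrS scl
    simp only [C_1, one_mul]
    congr!
  rw [h2, h]
  simp only [one_pow, one_mul]

/-- the rescaling -/
noncomputable def resc (d : ℕ) (a : ℂ) (f : MvPolynomial (Sym2 Ω) ℂ) : MvPolynomial (Sym2 Ω) ℂ :=
  C ((a ^ d)⁻¹) * aeval (scl (⊤ : SimpleGraph Ω).edgeSet a) f

open Classical in
omit [Fintype Ω] [DecidableEq Ω] in
theorem coeff_resc (d : ℕ) (a : ℂ) (f : MvPolynomial (Sym2 Ω) ℂ) (s : Sym2 Ω →₀ ℕ) :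
    coeff s (resc d a f) =
      if (s.support : Set (Sym2 Ω)) ⊆ (⊤ : SimpleGraph Ω).edgeSet then
        (a ^ d)⁻¹ * a ^ (s.sum fun _ m => m) * coeff s f else 0 := by
  unfold resc
  rw [coeff_C_mul, coeff_scale]
  split_ifs
  · ring
  · rw [mul_zero]

omit [Fintype Ω] in
theorem card_edges (C : Finset Ω) : (edges C).card = C.card.choose 2 := by
  classical
  have h : edges C = C.offDiag.image Sym2.mk.uncurry := by
    ext e
    induction e using Sym2.ind with
    | _ v w =>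
      rw [mem_edges, mem_image]
      constructor
      · rintro ⟨h1, h2, h3⟩
        exact ⟨(v, w), mem_offDiag.2 ⟨h1, h2, h3⟩, rfl⟩
      · rintro ⟨⟨a, b⟩, h1, h2⟩
        rw [mem_offDiag] at h1
        obtain ⟨h3, h4, h5⟩ := h1
        rcases Sym2.eq_iff.1 h2 with ⟨h6, h7⟩ | ⟨h6, h7⟩
        · dsimp only at h3 h4 h5 h6 h7
          subst h6; subst h7
          exact ⟨h3, h4, h5⟩
        · dsimp only at h3 h4 h5 h6 h7
          subst h6; subst h7
          exact ⟨h4, h3, fun h => h5 h.symm⟩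
  rw [h, Sym2.card_image_offDiag]

omit [Fintype Ω] in
theorem support_mon (C : Finset Ω) : (mon C).support = edges C := by
  ext e
  rw [Finsupp.mem_support_iff, mon_apply]
  split_ifs with h
  · simp [h]
  · simp [h]

omit [Fintype Ω] in
theorem sum_mon (C : Finset Ω) : ((mon C).sum fun _ m => m) = C.card.choose 2 := by
  unfold Finsupp.sum
  rw [support_mon, ← card_edges, Finset.card_eq_sum_ones]
  refine Finset.sum_congr rfl fun e he => ?_
  rw [mon_apply, if_pos he]

omit [Fintype Ω] [DecidableEq Ω] in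
theorem mem_edgeSet_of_adj {G : SimpleGraph Ω} {v w : Ω} : s(v, w) ∈ G.edgeSet ↔ G.Adj v w := Iff.rfl

omit [Fintype Ω] in
/-- cliques in the graph of a set of edges -/
theorem isNClique_iff (S : Set (Sym2 Ω)) (k : ℕ) (C : Finset Ω) :
    (SimpleGraph.fromEdgeSet S).IsNClique k C ↔ C.card = k ∧ (edges C : Set (Sym2 Ω)) ⊆ S := by
  rw [SimpleGraph.isNClique_iff, and_comm]
  refine and_congr Iff.rfl ?_
  constructor
  · intro h e he
    induction e using Sym2.ind with
    | _ v w =>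
      obtain ⟨hv, hw, hvw⟩ := mem_edges.1 (Finset.mem_coe.1 he)
      have := h (Finset.mem_coe.2 hv) (Finset.mem_coe.2 hw) hvw
      rw [SimpleGraph.fromEdgeSet_adj] at this
      exact this.1
  · intro h v hv w hw hvw
    rw [SimpleGraph.fromEdgeSet_adj]
    exact ⟨h (Finset.mem_coe.2 (mem_edges.2 ⟨Finset.mem_coe.1 hv, Finset.mem_coe.1 hw, hvw⟩)), hvw⟩

omit [Fintype Ω] [DecidableEq Ω] in
theorem edgeSet_from (S : Set (Sym2 Ω)) (hS : S ⊆ (⊤ : SimpleGraph Ω).edgeSet) :
    (SimpleGraph.fromEdgeSet S).edgeSet = S := by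
  rw [SimpleGraph.edgeSet_fromEdgeSet]
  ext e
  rw [Set.mem_sdiff]
  constructor
  · exact fun h => h.1
  · intro h
    refine ⟨h, ?_⟩
    have h1 := hS h
    induction e using Sym2.ind with
    | _ v w =>
      rw [mem_edgeSet_of_adj, SimpleGraph.top_adj] at h1
      simpa using h1

section

variable {k : ℕ} {f : MvPolynomial (Sym2 Ω) ℂ}

omit [Fintype Ω] in
/-- every monomial contains a clique -/
theorem exists_clique (hf : Detects k f) {s : Sym2 Ω →₀ ℕ}
    (hs : (s.support : Set (Sym2 Ω)) ⊆ (⊤ : SimpleGraph Ω).edgeSet) (hc : coeff s f ≠ 0) :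
    ∃ C : Finset Ω, C.card = k ∧ edges C ⊆ s.support := by
  classical
  have h1 : restr (SimpleGraph.fromEdgeSet (s.support : Set (Sym2 Ω))) f ≠ 0 := by
    intro h0
    have h2 := coeff_restr (SimpleGraph.fromEdgeSet (s.support : Set (Sym2 Ω))) f s
    rw [h0, coeff_zero, edgeSet_from _ hs, if_pos (Set.Subset.refl _)] at h2
    exact hc h2.symm
  obtain ⟨C, hC⟩ := (hf _).1 h1
  rw [isNClique_iff] at hC
  exact ⟨C, hC.1, fun e he => Finset.mem_coe.1 (hC.2 (Finset.mem_coe.2 he))⟩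

omit [Fintype Ω] in
theorem subset_of_edges (hk : 2 ≤ k) {C C' : Finset Ω} (hC' : C'.card = k)
    (h : edges C' ⊆ edges C) : C' ⊆ C := by
  intro v hv
  obtain ⟨w, hw, hne⟩ := Finset.exists_mem_ne (by omega : 1 < C'.card) v
  exact (mem_edges.1 (h (mem_edges.2 ⟨hv, hw, hne.symm⟩))).1

omit [Fintype Ω] in
theorem edges_top (C : Finset Ω) : (edges C : Set (Sym2 Ω)) ⊆ (⊤ : SimpleGraph Ω).edgeSet := by
  intro e he
  induction e using Sym2.ind with
  | _ v w =>
    obtain ⟨_, _, hvw⟩ := mem_edges.1 (Finset.mem_coe.1 he)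
    rw [mem_edgeSet_of_adj, SimpleGraph.top_adj]
    exact hvw

omit [Fintype Ω] in
/-- the coefficients of the cliques are not zero -/
theorem coeff_mon_ne (hk : 2 ≤ k) (hm : ∀ s, coeff s f ≠ 0 → ∀ e, s e ≤ 1) (hf : Detects k f) {C : Finset Ω}
    (hC : C.card = k) : coeff (mon C) f ≠ 0 := by
  classical
  have h1 : restr (SimpleGraph.fromEdgeSet (edges C : Set (Sym2 Ω))) f ≠ 0 :=
    (hf _).2 ⟨C, (isNClique_iff _ k C).2 ⟨hC, Set.Subset.refl _⟩⟩
  obtain ⟨s, hs⟩ := MvPolynomial.ne_zero_iff.1 h1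
  rw [coeff_restr, edgeSet_from _ (edges_top C)] at hs
  have h2 : (s.support : Set (Sym2 Ω)) ⊆ (edges C : Set (Sym2 Ω)) := by
    by_contra hcon
    rw [if_neg hcon] at hs
    exact hs rfl
  rw [if_pos h2] at hs
  obtain ⟨C', hC', h3⟩ := exists_clique hf (h2.trans (edges_top C)) hs
  have h4 : s.support ⊆ edges C := fun e he => Finset.mem_coe.1 (h2 (Finset.mem_coe.2 he))
  have h5 : C' = C := Finset.eq_of_subset_of_card_le (subset_of_edges hk hC' (h3.trans h4)) (by omega)
  subst h5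
  have h6 : s = mon C' := by
    ext e
    rw [mon_apply]
    split_ifs with he
    · have := hm s hs e
      have h7 := Finsupp.mem_support_iff.1 (h3 he)
      omega
    · by_contra hne
      exact he (h4 (Finsupp.mem_support_iff.2 hne))
  rw [← h6]
  exact hs

/-- the lowest form -/
noncomputable def low (k : ℕ) (f : MvPolynomial (Sym2 Ω) ℂ) : MvPolynomial (Sym2 Ω) ℂ :=
  homogeneousComponent (k.choose 2) (restr ⊤ f)

omit [Fintype Ω] [DecidableEq Ω] in
theorem coeff_low (k : ℕ) (f : MvPolynomial (Sym2 Ω) ℂ) (s : Sym2 Ω →₀ ℕ) :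
    coeff s (low k f) = open Classical in
      if (s.sum fun _ m => m) = k.choose 2 ∧ (s.support : Set (Sym2 Ω)) ⊆ (⊤ : SimpleGraph Ω).edgeSet
        then coeff s f else 0 := by
  classical
  unfold low
  rw [coeff_homogeneousComponent, coeff_restr]
  have h : s.degree = (s.sum fun _ m => m) := rfl
  rw [h]
  split_ifs with h1 h2 h3 h4 h5
  · rfl
  · exact absurd ⟨h1, h2⟩ h3
  · exact absurd h4.2 h2
  · rfl
  · exact absurd h5.1 h1
  · rfl

theorem low_support (hk : 2 ≤ k) (hm : ∀ s, coeff s f ≠ 0 → ∀ e, s e ≤ 1) (hf : Detects k f) :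
    CliqueSupport k (low k f) := by
  classical
  intro s
  rw [coeff_low]
  constructor
  · intro h
    split_ifs at h with h1
    · obtain ⟨C, hC, h2⟩ := exists_clique hf h1.2 h
      refine ⟨C, hC, ?_⟩
      have h3 : (mon C) ≤ s := by
        intro e
        rw [mon_apply]
        split_ifs with he
        · exact Nat.one_le_iff_ne_zero.2 (Finsupp.mem_support_iff.1 (h2 he))
        · exact Nat.zero_le _
      have h4 : (s - mon C).sum (fun _ m => m) = 0 := by
        have h5 : s = mon C + (s - mon C) := (add_tsub_cancel_of_le h3).symm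
        have h6 : (s.sum fun _ m => m) = ((mon C).sum fun _ m => m) + ((s - mon C).sum fun _ m => m) := by
          conv_lhs => rw [h5]
          exact Finsupp.sum_add_index' (fun _ => rfl) fun _ _ _ => rfl
        rw [h1.1, sum_mon, hC] at h6
        omega
      have h7 : s - mon C = 0 := by
        ext e
        by_contra hne
        have h8 : (s - mon C) e ≤ (s - mon C).sum fun _ m => m :=
          Finset.single_le_sum (f := fun e => (s - mon C) e) (fun _ _ => Nat.zero_le _)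
            (Finsupp.mem_support_iff.2 hne)
        rw [h4] at h8
        exact hne (Nat.le_zero.1 h8)
      rw [← add_tsub_cancel_of_le h3, h7, add_zero]
    · exact absurd rfl h
  · rintro ⟨C, hC, rfl⟩
    rw [if_pos ⟨by rw [sum_mon, hC], by rw [support_mon]; exact edges_top C⟩]
    exact coeff_mon_ne hk hm hf hC

omit [Fintype Ω] in
/-- the degree of the monomials is at least the number of edges of a clique -/
theorem le_degree (hf : Detects k f) {s : Sym2 Ω →₀ ℕ}
    (hs : (s.support : Set (Sym2 Ω)) ⊆ (⊤ : SimpleGraph Ω).edgeSet) (hc : coeff s f ≠ 0) :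
    k.choose 2 ≤ s.sum fun _ m => m := by
  obtain ⟨C, hC, h⟩ := exists_clique hf hs hc
  rw [← hC, ← card_edges]
  refine (Finset.card_le_card h).trans ?_
  rw [Finset.card_eq_sum_ones]
  exact Finset.sum_le_sum fun e he => Nat.one_le_iff_ne_zero.2 (Finsupp.mem_support_iff.1 he)

/-- The lowest form is a limit of rescalings of limits. -/
theorem low_limit (hf : Detects k f) (Q : MvPolynomial (Sym2 Ω) ℂ → Prop)
    (h : ∀ ε : ℝ, 0 < ε → ∃ P, Q P ∧ ∀ s, ‖coeff s P - coeff s f‖ < ε) :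
    ∀ ε : ℝ, 0 < ε → ∃ (P : MvPolynomial (Sym2 Ω) ℂ) (a : ℂ), Q P ∧ a ≠ 0 ∧
      ∀ s, ‖coeff s (resc (k.choose 2) a P) - coeff s (low k f)‖ < ε := by
  classical
  intro ε hε
  set d := k.choose 2 with hd
  set M : ℝ := ∑ s ∈ f.support, ‖coeff s f‖ with hM
  have hM0 : 0 ≤ M := Finset.sum_nonneg fun _ _ => norm_nonneg _
  have hcM : ∀ s, ‖coeff s f‖ ≤ M := by
    intro s
    by_cases hs : s ∈ f.support
    · exact Finset.single_le_sum (f := fun s => ‖coeff s f‖) (fun _ _ => norm_nonneg _) hs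
    · rw [notMem_support_iff.1 hs, norm_zero]
      exact hM0
  set a : ℝ := min 1 (ε / (2 * (M + 1))) with ha
  have ha0 : 0 < a := lt_min one_pos (by positivity)
  have ha1 : a ≤ 1 := min_le_left _ _
  have ha2 : a * M < ε / 2 + 0 := by
    have h1 : a ≤ ε / (2 * (M + 1)) := min_le_right _ _
    calc a * M < a * (M + 1) := by nlinarith
      _ ≤ ε / (2 * (M + 1)) * (M + 1) := by gcongr
      _ = ε / 2 + 0 := by field_simp; ring
  rw [add_zero] at ha2
  have had : 0 < a ^ d := pow_pos ha0 d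
  obtain ⟨P, hP, hPc⟩ := h (a ^ d * (ε / 2)) (by positivity)
  refine ⟨P, (a : ℂ), hP, by exact_mod_cast ha0.ne', fun s => ?_⟩
  rw [coeff_resc, coeff_low]
  set D := s.sum fun _ m => m with hD
  by_cases hs : (s.support : Set (Sym2 Ω)) ⊆ (⊤ : SimpleGraph Ω).edgeSet
  swap
  · rw [if_neg hs, if_neg (fun h => hs h.2), sub_zero, norm_zero]
    exact hε
  rw [if_pos hs]
  have hnorm : ‖((a : ℂ) ^ d)⁻¹ * (a : ℂ) ^ D‖ = (a ^ d)⁻¹ * a ^ D := by
    rw [norm_mul, norm_inv, norm_pow, norm_pow, Complex.norm_real, Real.norm_of_nonneg ha0.le]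
  have hle : ‖((a : ℂ) ^ d)⁻¹ * (a : ℂ) ^ D‖ ≤ (a ^ d)⁻¹ := by
    rw [hnorm]
    exact mul_le_of_le_one_right (by positivity) (pow_le_one₀ ha0.le ha1)
  clear_value D
  have h1 : ‖((a : ℂ) ^ d)⁻¹ * (a : ℂ) ^ D * coeff s P - ((a : ℂ) ^ d)⁻¹ * (a : ℂ) ^ D * coeff s f‖ < ε / 2 := by
    rw [← mul_sub, norm_mul]
    calc _ ≤ (a ^ d)⁻¹ * ‖coeff s P - coeff s f‖ := by gcongr
      _ < (a ^ d)⁻¹ * (a ^ d * (ε / 2)) := by
          have := hPc s
          gcongr
      _ = ε / 2 := by field_simp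
  have h2 : ‖((a : ℂ) ^ d)⁻¹ * (a : ℂ) ^ D * coeff s f - (if D = d ∧
      (s.support : Set (Sym2 Ω)) ⊆ (⊤ : SimpleGraph Ω).edgeSet then coeff s f else 0)‖ < ε / 2 := by
    by_cases hc : coeff s f = 0
    · rw [hc, mul_zero, ite_self, sub_zero, norm_zero]
      exact half_pos hε
    have hdeg := le_degree hf hs hc
    rw [← hd, ← hD] at hdeg
    rcases hdeg.lt_or_eq with hlt | heq
    · rw [if_neg (fun h => hlt.ne' h.1), sub_zero, norm_mul, hnorm]
      have h3 : (a ^ d)⁻¹ * a ^ D ≤ a := by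
        obtain ⟨j, rfl⟩ : ∃ j, D = d + 1 + j := ⟨D - (d + 1), by omega⟩
        rw [add_assoc, pow_add, ← mul_assoc, inv_mul_cancel₀ had.ne', one_mul, pow_add, pow_one]
        exact mul_le_of_le_one_right ha0.le (pow_le_one₀ ha0.le ha1)
      calc (a ^ d)⁻¹ * a ^ D * ‖coeff s f‖ ≤ a * M := by
            have := hcM s
            gcongr
        _ < ε / 2 := ha2
    · rw [if_pos ⟨heq.symm, hs⟩, ← heq, inv_mul_cancel₀ (pow_ne_zero _ (by exact_mod_cast ha0.ne')), one_mul,
        sub_self, norm_zero]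
      exact half_pos hε
  calc _ = ‖(((a : ℂ) ^ d)⁻¹ * (a : ℂ) ^ D * coeff s P - ((a : ℂ) ^ d)⁻¹ * (a : ℂ) ^ D * coeff s f) +
        (((a : ℂ) ^ d)⁻¹ * (a : ℂ) ^ D * coeff s f - (if D = d ∧
      (s.support : Set (Sym2 Ω)) ⊆ (⊤ : SimpleGraph Ω).edgeSet then coeff s f else 0))‖ := by
        rw [sub_add_sub_cancel]
    _ ≤ _ := norm_add_le _ _
    _ < ε / 2 + ε / 2 := add_lt_add h1 h2
    _ = ε := add_halves ε

end

omit [Fintype Ω] [DecidableEq Ω] in
theorem totalDegree_scl (S : Set (Sym2 Ω)) (a : ℂ) (e : Sym2 Ω) : (scl S a e).totalDegree ≤ 1 := by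
  unfold scl
  split_ifs
  · refine (totalDegree_mul _ _).trans ?_
    rw [totalDegree_C, totalDegree_X]
  · rw [totalDegree_zero]
    exact Nat.zero_le _

/-- circuits -/
theorem mulRep_resc (d : ℕ) (a : ℂ) {P : MvPolynomial (Sym2 Ω) ℂ} {r : ℕ} (h : Circ.MulRep P r) :
    Circ.MulRep (resc d a P) r := by
  classical
  unfold resc
  have h1 : Circ.MulRep (aeval (scl (⊤ : SimpleGraph Ω).edgeSet a) P) r :=
    h.aeval _ (totalDegree_scl _ a)
  obtain ⟨y, hy, c, α, β, hP⟩ := h1
  refine ⟨y, hy, (a ^ d)⁻¹ * c, fun v => (a ^ d)⁻¹ * α v, fun j => (a ^ d)⁻¹ * β j, ?_⟩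
  rw [hP]
  simp only [C_mul, mul_add, Finset.mul_sum, mul_assoc]

omit [DecidableEq Ω] in
/-- determinants -/
theorem detRep_resc (d : ℕ) (a : ℂ) {P : MvPolynomial (Sym2 Ω) ℂ} {m : ℕ}
    (h : Pool.Agent.Helper24.SQ.DetRep P (m + 1)) :
    Pool.Agent.Helper24.SQ.DetRep (resc d a P) (m + 1) := by
  classical
  unfold resc
  have h1 : Pool.Agent.Helper24.SQ.DetRep
      (aeval (scl (⊤ : SimpleGraph Ω).edgeSet a) P) (m + 1) := h.subst _ (totalDegree_scl _ a)
  obtain ⟨A₀, L, hA⟩ := h1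
  set c := (a ^ d)⁻¹ with hc
  set D : Matrix (Fin (m + 1)) (Fin (m + 1)) ℂ := Matrix.diagonal (Function.update (fun _ => 1) 0 c) with hD
  have hdet : D.det = c := by
    rw [hD, Matrix.det_diagonal, Finset.prod_update_of_mem (mem_univ _)]
    simp
  refine ⟨D * A₀, fun v => D * L v, fun x => ?_⟩
  rw [map_mul, eval_C, hA, ← hdet, ← Matrix.det_mul]
  congr 1
  rw [mul_add, Finset.mul_sum]
  congr 1
  refine Finset.sum_congr rfl fun v _ => ?_
  rw [Matrix.mul_smul]

/-- **Reduction for circuits.** -/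
theorem reduce_circuits {k : ℕ} (hk : 2 ≤ k) {f : MvPolynomial (Sym2 Ω) ℂ}
    (hm : ∀ s, coeff s f ≠ 0 → ∀ e, s e ≤ 1) (hf : Detects k f) {r : ℕ}
    (h : ∀ ε : ℝ, 0 < ε → ∃ P, Circ.MulRep P r ∧ ∀ s, ‖coeff s P - coeff s f‖ < ε) :
    CliqueSupport k (low k f) ∧
      ∀ ε : ℝ, 0 < ε → ∃ P, Circ.MulRep P r ∧ ∀ s, ‖coeff s P - coeff s (low k f)‖ < ε := by
  refine ⟨low_support hk hm hf, fun ε hε => ?_⟩
  obtain ⟨P, a, hP, _, h1⟩ := low_limit hf (fun P => Circ.MulRep P r) h ε hε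
  exact ⟨_, mulRep_resc _ a hP, h1⟩

/-- **Reduction for determinants.** -/
theorem reduce_dets {k : ℕ} (hk : 2 ≤ k) {f : MvPolynomial (Sym2 Ω) ℂ}
    (hm : ∀ s, coeff s f ≠ 0 → ∀ e, s e ≤ 1) (hf : Detects k f) {m : ℕ}
    (h : ∀ ε : ℝ, 0 < ε → ∃ P, Pool.Agent.Helper24.SQ.DetRep P m ∧ ∀ s, ‖coeff s P - coeff s f‖ < ε) :
    CliqueSupport k (low k f) ∧
      ∀ ε : ℝ, 0 < ε → ∃ P, Pool.Agent.Helper24.SQ.DetRep P m ∧ ∀ s, ‖coeff s P - coeff s (low k f)‖ < ε := by
  refine ⟨low_support hk hm hf, fun ε hε => ?_⟩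
  rcases m with _ | m
  · exfalso
    -- the polynomial `f` has constant term `1`
    have h1 : coeff 0 f ≠ 0 := by
      intro h0
      obtain ⟨P, hP, h2⟩ := h 1 one_pos
      obtain ⟨A₀, L, hA⟩ := hP
      have h3 : coeff 0 P = 1 := by
        have h4 := hA 0
        rw [Matrix.det_isEmpty] at h4
        rw [← h4, eval_zero, constantCoeff_eq]
      have h5 := h2 0
      rw [h3, h0, sub_zero, norm_one] at h5
      exact lt_irrefl _ h5
    obtain ⟨C, hC, h2⟩ := exists_clique hf (s := 0) (by simp) h1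
    have h3 : (edges C).card = 0 := by
      rw [Finsupp.support_zero] at h2
      rw [Finset.subset_empty.1 h2, card_empty]
    rw [card_edges, hC] at h3
    have := Nat.choose_pos hk
    omega
  · obtain ⟨P, a, hP, _, h1⟩ := low_limit hf (fun P => Pool.Agent.Helper24.SQ.DetRep P (m + 1)) h ε hε
    exact ⟨_, detRep_resc _ a hP, h1⟩

end CliqueTest
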